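import Pool.Agent.Lib.helper13.KAPI

namespace Pool.Agent.Results.MP_7b562e_lc.No

open Finset Filter Classical Pool.Agent.Lib.PR Pool.Agent.Lib.KAPI Pool.Agent.H.MP_7c40ec_lc

attribute [local irreducible] Primrec Computable

def OptCond (U : Str × ℕ →. Str) : Prop := Partrec U ∧ ∀ M : Str × ℕ →. Str, Partrec M →
  ∃ c : ℕ, ∀ p n z, z ∈ M (p, n) → ∃ q : Str, q.length ≤ p.length + c ∧ z ∈ U (q, n)

def OraMach (F : Str × Str →. Str) : Prop :=
  Partrec F ∧ ∀ p s t z, z ∈ F (p, s) → s <+: t → z ∈ F (p, t)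

def Out (F : Str × Str →. Str) (X : Set ℕ) (p z : Str) : Prop :=
  ∃ s : Str, (∀ i (h : i < s.length), s[i] = true ↔ i ∈ X) ∧ z ∈ F (p, s)

def OptOra (F : Str × Str →. Str) : Prop := OraMach F ∧ ∀ M, OraMach M →
  ∃ c : ℕ, ∀ X p z, Out M X p z → ∃ q : Str, q.length ≤ p.length + c ∧ Out F X q z

noncomputable def condC (U : Str × ℕ →. Str) (z : Str) (n : ℕ) : ℕ∞ :=
  ⨅ (p : Str) (_ : z ∈ U (p, n)), p.length

noncomputable def oraC (F : Str × Str →. Str) (X : Set ℕ) (z : Str) : ℕ∞ :=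
  ⨅ (p : Str) (_ : Out F X p z), p.length

theorem ora {F : Str × Str →. Str} (hF : OptOra F) (Q : Str → ℕ → Prop)
    (hQ : Primrec fun x : Str × ℕ => cd (Q x.1 x.2)) (uQ : ∀ p T T', Q p T → Q p T' → T = T')
    (o : Str → ℕ → Str) (ho : Primrec fun x : Str × ℕ => o x.1 x.2) : ∃ c : ℕ, ∀ X : Set ℕ,
    X.Infinite → ∀ p T, Q p T → ∃ y ∈ X, T ≤ y ∧ oraC F X (o p y) ≤ (p.length + c : ℕ) := by
  obtain ⟨q, hq⟩ : ∃ q : Str → ℕ → Bool, ∀ p T, q p T = cd (Q p T) := ⟨_, fun _ _ => rfl⟩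
  simp only [← hq] at hQ
  obtain ⟨M, m1, m2⟩ := mach (R := fun (a : Str × Str) (z : Str) (w : ℕ × ℕ) => q a.1 w.1 = true ∧
    w.1 ≤ w.2 ∧ a.2[w.2]? = some true ∧ (∀ i < w.2, w.1 ≤ i → a.2[i]? = some false) ∧ z = o a.1 w.2)
    (pred (by fun_prop)) fun a z z' w w' ⟨a1, a2, a3, a4, a5⟩ ⟨b1, b2, b3, b4, b5⟩ => by
      rw [hq, cd_true] at a1 b1
      have := uQ _ _ _ a1 b1
      rcases lt_trichotomy w.2 w'.2 with h | h | h
      · simp [b4 _ h (by omega)] at a3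
      · rw [a5, b5, h]
      · simp [a4 _ h (by omega)] at b3
  obtain ⟨c, hc⟩ := hF.2 M ⟨m1, fun p s t z hz ⟨u, hu⟩ => by
    obtain ⟨w, a1, a2, a3, a4, a5⟩ := (m2 _ _).1 hz
    have := (List.getElem?_eq_some_iff.1 a3).1
    refine (m2 _ _).2 ⟨w, a1, a2, ?_, fun i h1 h2 => ?_, a5⟩ <;>
      rw [← hu, List.getElem?_append_left (by dsimp only at this; omega)]
    exacts [a3, a4 i h1 h2]⟩
  refine ⟨c, fun X hX p T h => ?_⟩
  have e : ∃ y ∈ X, T ≤ y := (hX.exists_gt T).imp fun _ h => ⟨h.1, h.2.le⟩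
  obtain ⟨r, r1, r2⟩ := hc X p (o p (Nat.find e)) ⟨pre (fun i => decide (i ∈ X)) (Nat.find e + 1),
    by simp [pre, -List.ofFn_succ], (m2 _ _).2 ⟨(T, Nat.find e), by rwa [hq, cd_true],
      (Nat.find_spec e).2, by simp [pre, -List.ofFn_succ, (Nat.find_spec e).1], fun i h1 h2 => by
        have := Nat.find_min e h1
        dsimp only at h1
        simp only [pre, List.getElem?_ofFn, show i < Nat.find e + 1 by omega, dite_true]
        simp
        tauto, rfl⟩⟩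
  exact ⟨_, (Nat.find_spec e).1, (Nat.find_spec e).2, (iInf₂_le r r2).trans (Nat.cast_le.2 r1)⟩

theorem result (U : Str × ℕ →. Str) (F : Str × Str →. Str) (hU : OptCond U) (hF : OptOra F) :
    ∃ A : Set ℕ, ∀ N c : ℕ, ∃ z : Str,
      (⨆ (X : Set ℕ) (_ : X.Infinite ∧ (X ⊆ A ∨ X ⊆ Aᶜ)), oraC F X z) + c <
        ⨆ (n : ℕ) (_ : N ≤ n), condC U z n := by
  let Bad : ℕ → ℕ → Prop := fun a v => ∃ w : Str × ℕ, (w.2 ≤ a ∧ w.1.length ≤ 5 * a) ∧ un v ∈ U w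
  obtain ⟨G, g1, g2, g3, g4⟩ := re_bool (p := fun x : ℕ × ℕ => Bad x.1 x.2) (re_exists
    (R := fun (x : ℕ × ℕ) (w : Str × ℕ) => (w.2 ≤ x.1 ∧ w.1.length ≤ 5 * x.1) ∧ un x.2 ∈ U w)
    (re_and (re_prim (by fun_prop)) (re_cmp (re_graph hU.1) (fun x : (ℕ × ℕ) × Str × ℕ => (x.2, un x.1.2)) (by fun_prop))))
  have ex : ∀ a, ∃ v < 2 ^ (3 * a + 1) * 2 ^ (3 * a + 1), ¬ Bad a v := fun a => by
    by_contra h
    push Not at h
    choose! w w1 w2 using h
    have h1 := card_le_card_of_injOn w (s := range (2 ^ (3 * a + 1) * 2 ^ (3 * a + 1)))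
      (t := ((range _).image fun v => (w v).1) ×ˢ range (a + 1)) (fun v hv => mem_coe.2
        (mem_product.2 ⟨mem_image_of_mem _ hv, mem_range.2 (Nat.lt_succ_of_le
          (w1 v (mem_range.1 hv)).1)⟩)) fun u hu v hv h => un_inj (Part.mem_unique
            (w2 u (mem_range.1 hu)) (h ▸ w2 v (mem_range.1 hv)))
    rw [card_product, card_range, card_range] at h1
    have h2 := h1.trans (Nat.mul_le_mul (card_short (5 * a) _ (forall_mem_image.2 fun v hv =>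
      (w1 v (mem_range.1 hv)).2)) Nat.lt_two_pow_self)
    rw [← pow_add, ← pow_add, Nat.pow_le_pow_iff_right one_lt_two] at h2
    omega
  choose v v1 v2 v3 using fun a => (show ∃ v < 2 ^ (3 * a + 1) * 2 ^ (3 * a + 1), ¬ Bad a v ∧
    ∀ u < v, Bad a u from ⟨_, (Nat.find_spec (ex a)).1, (Nat.find_spec (ex a)).2, fun u hu => by
      have := Nat.find_min (ex a) hu
      have := (Nat.find_spec (ex a)).1
      by_contra h
      exact absurd ⟨by omega, h⟩ (Nat.find_min (ex a) hu)⟩)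
  obtain ⟨f, hf⟩ : ∃ f : ℕ → ℕ → ℕ, ∀ a t, f a t = (List.range (2 ^ (3 * a + 1) *
    2 ^ (3 * a + 1))).findIdx fun v => !G (a, v) t := ⟨_, fun _ _ => rfl⟩
  have f0 : Primrec fun x : ℕ × ℕ => f x.1 x.2 := by simp only [hf]; fun_prop
  have f1 : ∀ a t u, u < f a t → G (a, u) t = true := fun a t u h => by
    rw [hf] at h
    simpa using List.not_of_lt_findIdx h
  have f2 : ∀ a t u, u ≤ v a → (∀ w < u, G (a, w) t = true) → u ≤ f a t := fun a t u h1 h2 => by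
    by_contra h
    have := List.findIdx_getElem (xs := List.range (2 ^ (3 * a + 1) * 2 ^ (3 * a + 1)))
      (p := fun v => !G (a, v) t) (w := by rw [← hf, List.length_range]; have := v1 a; omega)
    simp [← hf, h2 _ (not_le.1 h)] at this
  have f3 : ∀ a t, f a t ≤ v a := fun a t => not_lt.1 fun h => v2 a (g2 _ _ (f1 _ _ _ h))
  have f4 : ∀ a t t', t ≤ t' → f a t ≤ f a t' := fun a t t' h =>
    f2 _ _ _ (f3 _ _) fun w hw => g3 _ _ _ h (f1 _ _ _ hw)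
  have f5 : ∀ a, ∃ T, ∀ t ≥ T, f a t = v a := fun a => by
    choose! t ht using fun u hu => g4 (a, u) (v3 a u hu)
    exact ⟨(range (v a)).sup t, fun s hs => (f3 _ _).antisymm (f2 _ _ _ le_rfl fun w hw =>
      g3 _ _ _ ((le_sup (mem_range.2 hw)).trans hs) (ht w hw))⟩
  choose T hT using f5
  have e : ∀ a, ∃ t, a ≤ t ∧ f a t / 2 ^ (3 * a + 1) = v a / 2 ^ (3 * a + 1) := fun a =>
    ⟨a + T a, by omega, by rw [hT a _ (by omega)]⟩
  obtain ⟨c1, h1⟩ := ora hF (fun p t => t = hd p) (by fun_prop) (by simp) (fun p y =>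
    un (2 ^ (3 * hd p + 1) * (f (hd p) y / 2 ^ (3 * hd p + 1)) + H.MP_7c40ec_lc.val (tl p)))
    (by fun_prop)
  obtain ⟨c2, h2⟩ := ora hF (fun p t => (hd p ≤ t ∧ f (hd p) t / 2 ^ (3 * hd p + 1) =
    H.MP_7c40ec_lc.val (tl p)) ∧ ∀ s < t, ¬ (hd p ≤ s ∧ f (hd p) s / 2 ^ (3 * hd p + 1) =
      H.MP_7c40ec_lc.val (tl p))) (by fun_prop) (fun p t s a b => le_antisymm
        (not_lt.1 fun h => a.2 _ h b.1) (not_lt.1 fun h => b.2 _ h a.1)) (fun p y => un (f (hd p) y))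
    (by fun_prop)
  obtain ⟨s, s1⟩ : ∃ s : ℕ → ℕ, ∀ j, s (j + 1) = Nat.find (e (s j)) + T (s j) + 1 :=
    ⟨Nat.rec 0 fun _ a => Nat.find (e a) + T a + 1, fun _ => rfl⟩
  have s2 : StrictMono s := strictMono_nat_of_lt_succ fun j => by
    have := (Nat.find_spec (e (s j))).1
    have := s1 j
    omega
  refine ⟨{x | ∃ j, s j ≤ x ∧ x < Nat.find (e (s j))}, fun N c => ?_⟩
  obtain ⟨j, hj⟩ : ∃ j, j = N + c + c1 + c2 + 2 := ⟨_, rfl⟩
  have a0 : j ≤ s j := s2.le_apply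
  refine ⟨un (v (s j)), lt_of_le_of_lt (add_le_add (iSup₂_le
    (a := ((4 * s j + 2 + c1 + c2 : ℕ) : ℕ∞)) fun X hX => ?_) le_rfl) (lt_of_lt_of_le
      (b := ((5 * s j + 1 : ℕ) : ℕ∞)) (by norm_cast; omega) (le_iSup₂_of_le N le_rfl
        (le_iInf₂ fun p hp => Nat.cast_le.2 (not_le.1 fun h =>
          v2 (s j) ⟨(p, N), ⟨by omega, h⟩, hp⟩))))⟩
  rcases hX.2 with h | h
  · obtain ⟨p, p1, p2⟩ := val_surj (3 * s j + 1) (v (s j) / 2 ^ (3 * s j + 1))
      (Nat.div_lt_of_lt_mul (v1 _))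
    obtain ⟨y, y1, y2, y3⟩ := h2 X hX.1 (mk (s j) p) (Nat.find (e (s j))) (by
      rw [hd_mk, tl_mk, p2]
      exact ⟨Nat.find_spec (e _), fun _ => Nat.find_min (e _)⟩)
    obtain ⟨i, i1, i2⟩ := h y1
    have := s1 i
    have := s1 j
    have : j + 1 ≤ i := by
      by_contra h
      rcases (Nat.le_of_lt_succ (not_le.1 h)).eq_or_lt with rfl | h
      · omega
      · have := s2.monotone (Nat.succ_le_of_lt h)
        have := (Nat.find_spec (e (s j))).1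
        simp only [Nat.succ_eq_add_one] at *
        omega
    have := s2.monotone this
    rw [hd_mk, hT _ _ (by omega), len_mk] at y3
    exact y3.trans (Nat.cast_le.2 (by omega))
  · obtain ⟨p, p1, p2⟩ := val_surj (3 * s j + 1) (v (s j) % 2 ^ (3 * s j + 1))
      (Nat.mod_lt _ (by positivity))
    obtain ⟨y, y1, y2, y3⟩ := h1 X hX.1 (mk (s j) p) (s j) (hd_mk _ _).symm
    have := Nat.div_le_div_right (c := 2 ^ (3 * s j + 1)) (f4 (s j) _ _
      (not_lt.1 fun h' => h y1 ⟨j, y2, h'⟩))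
    rw [(Nat.find_spec (e _)).2] at this
    rw [hd_mk, tl_mk, p2, len_mk, (Nat.div_le_div_right (f3 _ _)).antisymm this,
      Nat.div_add_mod] at y3
    exact y3.trans (Nat.cast_le.2 (by omega))

end Pool.Agent.Results.MP_7b562e_lc.No
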